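import Pool.Agent.H346R3.LMD.Twin

set_option autoImplicit false
set_option linter.unusedSectionVars false

namespace Pool.Agent.H346R3.LMD

open Finset

variable {V : Type*} [DecidableEq V] {G : SimpleGraph V} {k : ℕ}
variable {U : Finset V} {c : V → Fin k} {v : V}

/-- the exchange colouring -/
def rec3 (c : V → Fin k) (v r : V) (i j : Fin k) : V → Fin k :=
  fun z => if z = v then i else if z = r then j else c z

theorem exchange_card {r u0 : V} (hv : v ∉ U) (hr : r ∉ U) (hrv : r ≠ v) (hu : u0 ∈ U) :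
    U.card < (insert r (insert v (U.erase u0))).card := by
  rw [Finset.card_insert_of_notMem, Finset.card_insert_of_notMem, Finset.card_erase_of_mem hu]
  · have := Finset.card_pos.mpr ⟨u0, hu⟩
    omega
  · intro h
    exact hv (Finset.mem_of_mem_erase h)
  · intro h
    rcases Finset.mem_insert.mp h with h | h
    · exact hrv h
    · exact hr (Finset.mem_of_mem_erase h)

theorem exists_good [Fintype V] (hG : G.Connected) (hk : 2 ≤ k) (hcf : G.CliqueFree (k + 2))
    (hcard : k + 2 ≤ Fintype.card V) : ∃ c : V → Fin k, Good G Finset.univ c := by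
  classical
  have hk0 : 0 < k := by omega
  have hnt : Nontrivial (Fin k) := Fin.nontrivial_iff_two_le.mpr hk
  -- a maximal good set
  obtain ⟨U, hU, hmax⟩ := Finset.exists_max_image
    ((Finset.univ : Finset (Finset V)).filter (fun U => ∃ c : V → Fin k, Good G U c))
    Finset.card ⟨∅, by
      rw [Finset.mem_filter]
      exact ⟨Finset.mem_univ _, fun _ => ⟨0, hk0⟩, fun x hx => absurd hx (Finset.notMem_empty x)⟩⟩
  rw [Finset.mem_filter] at hU
  obtain ⟨-, c, hc⟩ := hU
  have hmax' : ∀ U' : Finset V, U.card < U'.card → ∀ c' : V → Fin k, ¬ Good G U' c' := by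
    intro U' hlt c' hc'
    have := hmax U' (by rw [Finset.mem_filter]; exact ⟨Finset.mem_univ _, c', hc'⟩)
    omega
  by_cases hUu : U = Finset.univ
  · subst hUu; exact ⟨c, hc⟩
  exfalso
  have hst : ∀ v, v ∉ U → Stuck G U c v := fun v hv =>
    ⟨hv, hc, hmax' _ (by rw [Finset.card_insert_of_notMem hv]; omega), hcf⟩
  obtain ⟨v, hv⟩ : ∃ v, v ∉ U := by
    by_contra hcon
    push Not at hcon
    exact hUu (Finset.eq_univ_of_forall hcon)
  obtain ⟨u, huU, huc, hvu, huu, hvz, huz⟩ := (hst v hv).structure' hk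
  have huinj : Function.Injective u := by
    intro l m e
    rw [← huc l, ← huc m, e]
  -- a vertex outside of the clique adjacent to it
  let Qs : Finset V := insert v (Finset.univ.image u)
  have hQcard : Qs.card < Fintype.card V := by
    have h1 : Qs.card ≤ (Finset.univ.image u).card + 1 := Finset.card_insert_le _ _
    have h2 : (Finset.univ.image u).card ≤ k := by
      calc (Finset.univ.image u).card ≤ (Finset.univ : Finset (Fin k)).card :=
            Finset.card_image_le
        _ = k := by simp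
    omega
  obtain ⟨t, ht⟩ : ∃ t, t ∉ Qs := by
    by_contra hcon
    push Not at hcon
    have : Qs = Finset.univ := Finset.eq_univ_of_forall hcon
    rw [this, Finset.card_univ] at hQcard
    exact lt_irrefl _ hQcard
  obtain ⟨wk⟩ := hG.preconnected v t
  obtain ⟨d, -, hd1, hd2⟩ := wk.exists_boundary_dart (Qs : Set V)
    (Finset.mem_coe.mpr (Finset.mem_insert_self _ _)) (fun h => ht (Finset.mem_coe.mp h))
  obtain ⟨q, r, hqr, hq, hr⟩ : ∃ q r, G.Adj q r ∧ q ∈ Qs ∧ r ∉ Qs :=
    ⟨d.fst, d.snd, d.adj, Finset.mem_coe.mp hd1, fun h => hd2 (Finset.mem_coe.mpr h)⟩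
  have hrv : r ≠ v := fun e => hr (e ▸ Finset.mem_insert_self _ _)
  have hru : ∀ l, r ≠ u l := fun l e => hr (by
    rw [e]
    exact Finset.mem_insert_of_mem (Finset.mem_image_of_mem u (Finset.mem_univ l)))
  have hrU : r ∉ U := by
    intro hrU
    rcases Finset.mem_insert.mp hq with rfl | hq
    · obtain ⟨l, hl⟩ := hvz r hrU hqr
      exact hru l hl
    · obtain ⟨l, -, rfl⟩ := Finset.mem_image.mp hq
      obtain ⟨m, hm⟩ := huz r hrU l hqr
      exact hru m hm
  obtain ⟨u', hu'U, hu'c, hru', hu'u', hrz, hu'z⟩ := (hst r hrU).structure' hk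
  let l0 : Fin k := ⟨0, hk0⟩
  -- pairs inside `U` minus a vertex of the clique
  have hpair : ∀ p ∈ U, ∀ q ∈ U, p ≠ u l0 → q ≠ u l0 → G.Adj p q → c p = c q →
      ∃ z ∈ U, z ≠ u l0 ∧ c z ≠ c p ∧ ¬ (G.Adj z p ↔ G.Adj z q) := by
    intro p hp q hq hp0 hq0 hpq hcpq
    obtain ⟨z, hz, hz1, hz2⟩ := hc p hp q hq hpq hcpq
    refine ⟨z, hz, ?_, hz1, hz2⟩
    rintro rfl
    apply hz2
    constructor
    · intro h
      obtain ⟨m, rfl⟩ := huz p hp l0 h
      obtain ⟨m', rfl⟩ := huz q hq m hpq
      exact huu l0 m' (fun e => hq0 (by rw [e]))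
    · intro h
      obtain ⟨m, rfl⟩ := huz q hq l0 h
      obtain ⟨m', rfl⟩ := huz p hp m hpq.symm
      exact huu l0 m' (fun e => hp0 (by rw [e]))
  have hne : ∀ z ∈ U, z ≠ v := fun z hz e => hv (e ▸ hz)
  have hner : ∀ z ∈ U, z ≠ r := fun z hz e => hrU (e ▸ hz)
  -- the general exchange
  have hexch : ∀ l1 : Fin k, (l1 = l0 → ¬ G.Adj v r) →
      (∀ q ∈ U, q ≠ u l0 → G.Adj r q → c q = l1 → l0 ≠ l1 ∧ ¬ G.Adj v q ∧ G.Adj v r) →
      False := by
    intro l1 hl1 hrq
    apply hmax' _ (exchange_card hv hrU hrv (huU l0)) (rec2 c v r l0 l1)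
    have hvm : v ∈ insert r (insert v (U.erase (u l0))) :=
      Finset.mem_insert_of_mem (Finset.mem_insert_self _ _)
    have hin : ∀ z ∈ U, z ≠ u l0 → z ∈ insert r (insert v (U.erase (u l0))) := fun z hz hz0 =>
      Finset.mem_insert_of_mem (Finset.mem_insert_of_mem (Finset.mem_erase.mpr ⟨hz0, hz⟩))
    have hout : ∀ z ∈ insert r (insert v (U.erase (u l0))), z ≠ v → z ≠ r →
        z ∈ U ∧ z ≠ u l0 := by
      intro z hz h1 h2
      have h3 := ((Finset.mem_insert.mp hz).resolve_left h2)
      have h4 := ((Finset.mem_insert.mp h3).resolve_left h1)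
      exact ⟨Finset.mem_of_mem_erase h4, Finset.ne_of_mem_erase h4⟩
    have hvcase : ∀ q ∈ U, q ≠ u l0 → G.Adj v q → l0 = c q → False := by
      intro q hqU hq0 hvq hcq
      obtain ⟨m, rfl⟩ := hvz q hqU hvq
      apply hq0
      rw [hcq, huc]
    have hrcase : ∀ q ∈ U, q ≠ u l0 → G.Adj r q → l1 = c q →
        ∃ z ∈ insert r (insert v (U.erase (u l0))), rec2 c v r l0 l1 z ≠ l1 ∧
          ¬ (G.Adj z r ↔ G.Adj z q) := by
      intro q hqU hq0 hrq' hcq
      obtain ⟨h1, h2, h3⟩ := hrq q hqU hq0 hrq' hcq.symm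
      exact ⟨v, hvm, by rw [rec2_v]; exact h1, fun e => h2 (e.mp h3)⟩
    intro p hp q hq hpq hcpq
    by_cases hpv : p = v
    · subst hpv
      have hqv : q ≠ p := (G.ne_of_adj hpq).symm
      by_cases hqr' : q = r
      · subst hqr'
        rw [rec2_v, rec2_y c hrv] at hcpq
        exact absurd hpq (hl1 hcpq.symm)
      · obtain ⟨hqU, hq0⟩ := hout q hq hqv hqr'
        rw [rec2_v, rec2_z c hqv hqr'] at hcpq
        exact (hvcase q hqU hq0 hpq hcpq).elim
    · by_cases hpr : p = r
      · subst hpr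
        have hqr' : q ≠ p := (G.ne_of_adj hpq).symm
        by_cases hqv : q = v
        · subst hqv
          rw [rec2_v, rec2_y c hrv] at hcpq
          exact absurd hpq.symm (hl1 hcpq)
        · obtain ⟨hqU, hq0⟩ := hout q hq hqv hqr'
          rw [rec2_y c hrv, rec2_z c hqv hqr'] at hcpq
          rw [rec2_y c hrv]
          exact hrcase q hqU hq0 hpq hcpq
      · obtain ⟨hpU, hp0⟩ := hout p hp hpv hpr
        by_cases hqv : q = v
        · subst hqv
          rw [rec2_v, rec2_z c hpv hpr] at hcpq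
          exact (hvcase p hpU hp0 hpq.symm hcpq.symm).elim
        · by_cases hqr' : q = r
          · subst hqr'
            rw [rec2_y c hrv, rec2_z c hpv hpr] at hcpq
            obtain ⟨z, hz, hz1, hz2⟩ := hrcase p hpU hp0 hpq.symm hcpq.symm
            refine ⟨z, hz, ?_, fun e => hz2 e.symm⟩
            rw [rec2_z c hpv hpr, hcpq]
            exact hz1
          · obtain ⟨hqU, hq0⟩ := hout q hq hqv hqr'
            rw [rec2_z c hpv hpr, rec2_z c hqv hqr'] at hcpq
            obtain ⟨z, hz, hz0, hz1, hz2⟩ := hpair p hpU q hqU hp0 hq0 hpq hcpq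
            refine ⟨z, hin z hz hz0, ?_, hz2⟩
            rw [rec2_z c hpv hpr, rec2_z c (hne z hz) (hner z hz)]
            exact hz1
  by_cases hru2 : ∃ l, G.Adj r (u l)
  · obtain ⟨l, hl⟩ := hru2
    obtain ⟨l', hl'⟩ := hrz (u l) (huU l) hl
    have hall : ∀ m, G.Adj r (u m) := by
      intro m
      by_cases hml : m = l
      · subst hml; exact hl
      · have h1 : G.Adj (u' l') (u m) := by
          rw [← hl']; exact huu l m (fun e => hml e.symm)
        obtain ⟨m', hm'⟩ := hu'z (u m) (huU m) l' h1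
        rw [hm']
        exact hru' m'
    have hnvr : ¬ G.Adj v r := by
      intro hvr
      apply hcf (insert r (insert v (Finset.univ.image u)))
      constructor
      · rw [SimpleGraph.isClique_iff, Set.Pairwise]
        intro x hx y hy hxy
        simp only [Finset.coe_insert, Finset.coe_image, Finset.coe_univ, Set.image_univ,
          Set.mem_insert_iff, Set.mem_range] at hx hy
        rcases hx with rfl | rfl | ⟨l, rfl⟩
        · rcases hy with rfl | rfl | ⟨m, rfl⟩
          · exact absurd rfl hxy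
          · exact hvr.symm
          · exact hall m
        · rcases hy with rfl | rfl | ⟨m, rfl⟩
          · exact hvr
          · exact absurd rfl hxy
          · exact hvu m
        · rcases hy with rfl | rfl | ⟨m, rfl⟩
          · exact (hall l).symm
          · exact (hvu l).symm
          · exact huu l m (fun e => hxy (by rw [e]))
      · rw [Finset.card_insert_of_notMem hr, Finset.card_insert_of_notMem,
          Finset.card_image_of_injective _ huinj, Finset.card_univ, Fintype.card_fin]
        intro h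
        obtain ⟨l, -, hl⟩ := Finset.mem_image.mp h
        exact hne _ (huU l) hl
    refine hexch l0 (fun _ => hnvr) ?_
    intro q hqU hq0 hrq hcq
    exfalso
    -- `q` is the vertex of colour `l0` adjacent to `r`, that is `u l0`
    obtain ⟨m, hm⟩ := hrz q hqU hrq
    obtain ⟨m', hm'⟩ := hrz (u l0) (huU l0) (hall l0)
    apply hq0
    rw [hm, hm']
    congr 1
    rw [← hu'c m, ← hm, hcq, ← hu'c m', ← hm', huc]
  · push Not at hru2
    have hvr : G.Adj v r := by
      rcases Finset.mem_insert.mp hq with rfl | hq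
      · exact hqr
      · obtain ⟨l, -, rfl⟩ := Finset.mem_image.mp hq
        exact absurd hqr.symm (hru2 l)
    obtain ⟨l1, hl1⟩ := exists_ne l0
    refine hexch l1 (fun e => absurd e hl1) ?_
    intro q hqU hq0 hrq hcq
    refine ⟨hl1.symm, ?_, hvr⟩
    intro hvq
    obtain ⟨m, rfl⟩ := hvz q hqU hvq
    exact hru2 m hrq

end Pool.Agent.H346R3.LMD
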