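import Mathlib

set_option autoImplicit false
set_option linter.unusedSectionVars false

namespace Pool.Agent.H346R3.LMD

open Finset

variable {V : Type*} [DecidableEq V] (G : SimpleGraph V) {k : ℕ}

/-- every monochromatic edge inside `U` is distinguished by a vertex of `U` of another colour -/
def Good (U : Finset V) (c : V → Fin k) : Prop :=
  ∀ x ∈ U, ∀ y ∈ U, G.Adj x y → c x = c y → ∃ z ∈ U, c z ≠ c x ∧ ¬ (G.Adj z x ↔ G.Adj z y)

variable {G}

theorem good_of_two {U' : Finset V} {c' : V → Fin k} {v y : V}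
    (h1 : ∀ p ∈ U', ∀ q ∈ U', p ≠ v → q ≠ v → p ≠ y → q ≠ y → G.Adj p q → c' p = c' q →
      ∃ z ∈ U', c' z ≠ c' p ∧ ¬ (G.Adj z p ↔ G.Adj z q))
    (h2 : ∀ q ∈ U', q ≠ v → q ≠ y → G.Adj v q → c' v = c' q →
      ∃ z ∈ U', c' z ≠ c' v ∧ ¬ (G.Adj z v ↔ G.Adj z q))
    (h3 : ∀ q ∈ U', q ≠ v → q ≠ y → G.Adj y q → c' y = c' q →
      ∃ z ∈ U', c' z ≠ c' y ∧ ¬ (G.Adj z y ↔ G.Adj z q))
    (h4 : c' v ≠ c' y) : Good G U' c' := by
  intro p hp q hq hpq hc
  by_cases hpv : p = v
  · subst hpv
    by_cases hqy : q = y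
    · subst hqy
      exact absurd hc h4
    · exact h2 q hq (G.ne_of_adj hpq).symm hqy hpq hc
  · by_cases hqv : q = v
    · subst hqv
      by_cases hpy : p = y
      · subst hpy
        exact absurd hc.symm h4
      · obtain ⟨z, hz, hz1, hz2⟩ := h2 p hp hpv hpy hpq.symm hc.symm
        exact ⟨z, hz, by rw [hc]; exact hz1, fun h => hz2 h.symm⟩
    · by_cases hpy : p = y
      · subst hpy
        exact h3 q hq hqv (G.ne_of_adj hpq).symm hpq hc
      · by_cases hqy : q = y
        · subst hqy
          obtain ⟨z, hz, hz1, hz2⟩ := h3 p hp hpv hpy hpq.symm hc.symm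
          exact ⟨z, hz, by rw [hc]; exact hz1, fun h => hz2 h.symm⟩
        · exact h1 p hp q hq hpv hqv hpy hqy hpq hc

/-- the situation of a good colouring of `U` which does not extend to `v` in any way -/
structure Stuck (G : SimpleGraph V) (U : Finset V) (c : V → Fin k) (v : V) : Prop where
  hv : v ∉ U
  good : Good G U c
  max : ∀ c' : V → Fin k, ¬ Good G (insert v U) c'
  cf : G.CliqueFree (k + 2)

/-- the conflict sets -/
def IsW (G : SimpleGraph V) (U : Finset V) (c : V → Fin k) (v : V) (j : Fin k) (w : V) : Prop :=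
  w ∈ U ∧ G.Adj v w ∧ c w = j ∧ ∀ z ∈ U, c z ≠ j → (G.Adj z v ↔ G.Adj z w)

variable {U : Finset V} {c : V → Fin k} {v : V}

theorem Stuck.exists_W (h : Stuck G U c v) (j : Fin k) : ∃ w, IsW G U c v j w := by
  by_contra hcon
  push Not at hcon
  apply h.max (Function.update c v j)
  have hne : ∀ z ∈ U, z ≠ v := fun z hz e => h.hv (e ▸ hz)
  have key : ∀ q ∈ U, G.Adj v q → j = c q → ∃ z ∈ U, c z ≠ j ∧ ¬ (G.Adj z v ↔ G.Adj z q) := by
    intro q hq hvq hc
    by_contra hcon2
    push Not at hcon2
    apply hcon q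
    exact ⟨hq, hvq, hc.symm, fun z hz hz1 => by
      by_contra hcon3
      exact absurd (hcon2 z hz hz1) hcon3⟩
  intro p hp q hq hpq hc
  rw [Finset.mem_insert] at hp hq
  by_cases hpv : p = v
  · subst hpv
    have hqv : q ≠ p := (G.ne_of_adj hpq).symm
    have hqU : q ∈ U := hq.resolve_left hqv
    rw [Function.update_self, Function.update_of_ne hqv] at hc
    obtain ⟨z, hz, hz1, hz2⟩ := key q hqU hpq hc
    refine ⟨z, Finset.mem_insert_of_mem hz, ?_, hz2⟩
    rw [Function.update_self, Function.update_of_ne (hne z hz)]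
    exact hz1
  · have hpU : p ∈ U := hp.resolve_left hpv
    by_cases hqv : q = v
    · subst hqv
      rw [Function.update_self, Function.update_of_ne hpv] at hc
      obtain ⟨z, hz, hz1, hz2⟩ := key p hpU hpq.symm hc.symm
      refine ⟨z, Finset.mem_insert_of_mem hz, ?_, fun h => hz2 h.symm⟩
      rw [Function.update_of_ne hpv, Function.update_of_ne (hne z hz), hc]
      exact hz1
    · have hqU : q ∈ U := hq.resolve_left hqv
      rw [Function.update_of_ne hpv, Function.update_of_ne hqv] at hc
      obtain ⟨z, hz, hz1, hz2⟩ := h.good p hpU q hqU hpq hc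
      refine ⟨z, Finset.mem_insert_of_mem hz, ?_, hz2⟩
      rw [Function.update_of_ne hpv, Function.update_of_ne (hne z hz)]
      exact hz1

theorem IsW.adj {j : Fin k} {w a : V} (hw : IsW G U c v j w) (ha : a ∈ U) (hva : G.Adj v a)
    (hc : c a ≠ j) : G.Adj w a :=
  ((hw.2.2.2 a ha hc).mp hva.symm).symm

/-- the neighbours of `v` of a given colour are independent -/
theorem Stuck.indep (h : Stuck G U c v) {a a' : V} (ha : a ∈ U) (ha' : a' ∈ U)
    (hva : G.Adj v a) (hva' : G.Adj v a') (hc : c a = c a') : ¬ G.Adj a a' := by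
  intro haa
  have hex := fun j => h.exists_W j
  choose u hu using hex
  let u' : Fin k → V := Function.update u (c a) a
  have hu'c : ∀ l, c (u' l) = l := by
    intro l
    by_cases hl : l = c a
    · subst hl; simp [u']
    · simp only [u', Function.update_of_ne hl]
      exact (hu l).2.2.1
  have hu'U : ∀ l, u' l ∈ U := by
    intro l
    by_cases hl : l = c a
    · subst hl; simpa [u'] using ha
    · simp only [u', Function.update_of_ne hl]
      exact (hu l).1
  have hu'v : ∀ l, G.Adj v (u' l) := by
    intro l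
    by_cases hl : l = c a
    · subst hl; simpa [u'] using hva
    · simp only [u', Function.update_of_ne hl]
      exact (hu l).2.1
  have hu'inj : Function.Injective u' := by
    intro l m hlm
    rw [← hu'c l, ← hu'c m, hlm]
  have hadj : ∀ l m, l ≠ m → G.Adj (u' l) (u' m) := by
    intro l m hlm
    by_cases hl : l = c a
    · have hm : m ≠ c a := fun e => hlm (hl.trans e.symm)
      have h1 : u' m = u m := by simp only [u', Function.update_of_ne hm]
      rw [h1]
      exact ((hu m).adj (hu'U l) (hu'v l) (by rw [hu'c l]; exact hlm)).symm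
    · have h1 : u' l = u l := by simp only [u', Function.update_of_ne hl]
      rw [h1]
      exact (hu l).adj (hu'U m) (hu'v m) (by rw [hu'c m]; exact hlm.symm)
  have hadj' : ∀ l, G.Adj a' (u' l) := by
    intro l
    by_cases hl : l = c a
    · subst hl; simpa [u'] using haa.symm
    · simp only [u', Function.update_of_ne hl]
      exact ((hu l).adj ha' hva' (by rw [← hc]; exact fun e => hl e.symm)).symm
  have hvU : ∀ z ∈ U, v ≠ z := fun z hz e => h.hv (e ▸ hz)
  have hv1 : v ∉ insert a' (Finset.univ.image u') := by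
    rw [Finset.mem_insert, Finset.mem_image]
    rintro (e | ⟨l, _, e⟩)
    · exact hvU a' ha' e
    · exact hvU _ (hu'U l) e.symm
  have ha1 : a' ∉ Finset.univ.image u' := by
    rw [Finset.mem_image]
    rintro ⟨l, _, e⟩
    exact (G.ne_of_adj (hadj' l)) e.symm
  apply h.cf (insert v (insert a' (Finset.univ.image u')))
  constructor
  · rw [SimpleGraph.isClique_iff, Set.Pairwise]
    intro x hx y hy hxy
    simp only [Finset.coe_insert, Finset.coe_image, Finset.coe_univ, Set.image_univ,
      Set.mem_insert_iff, Set.mem_range] at hx hy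
    rcases hx with rfl | rfl | ⟨l, rfl⟩
    · rcases hy with rfl | rfl | ⟨m, rfl⟩
      · exact absurd rfl hxy
      · exact hva'
      · exact hu'v m
    · rcases hy with rfl | rfl | ⟨m, rfl⟩
      · exact hva'.symm
      · exact absurd rfl hxy
      · exact hadj' m
    · rcases hy with rfl | rfl | ⟨m, rfl⟩
      · exact (hu'v l).symm
      · exact (hadj' l).symm
      · exact hadj l m (fun e => hxy (by rw [e]))
  · rw [Finset.card_insert_of_notMem hv1, Finset.card_insert_of_notMem ha1,
      Finset.card_image_of_injective _ hu'inj, Finset.card_univ, Fintype.card_fin]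

/-- the first recolouring step -/
theorem Stuck.step (h : Stuck G U c v) {i j : Fin k} (hij : i ≠ j) {w : V}
    (hw : IsW G U c v j w) :
    ∃ y ∈ U, G.Adj w y ∧ c y = i ∧ ∀ z ∈ U, c z ≠ i → z ≠ w → (G.Adj z w ↔ G.Adj z y) := by
  by_contra hcon
  have hne : ∀ z ∈ U, z ≠ v := fun z hz e => h.hv (e ▸ hz)
  have hwv : w ≠ v := hne w hw.1
  apply h.max (fun z => if z = v then j else if z = w then i else c z)
  have cv : (fun z => if z = v then j else if z = w then i else c z) v = j := by simp
  have cw : (fun z => if z = v then j else if z = w then i else c z) w = i := by simp [hwv]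
  have cz : ∀ z, z ≠ v → z ≠ w →
      (fun z => if z = v then j else if z = w then i else c z) z = c z := by
    intro z h1 h2; simp [h1, h2]
  generalize (fun z => if z = v then j else if z = w then i else c z) = c' at cv cw cz
  have hwi : v ∈ insert v U := Finset.mem_insert_self _ _
  have hwU : w ∈ insert v U := Finset.mem_insert_of_mem hw.1
  apply good_of_two (v := v) (y := w)
  · intro p hp q hq hpv hqv hpw hqw hpq hc
    rw [cz p hpv hpw, cz q hqv hqw] at hc
    rw [cz p hpv hpw]
    have hpU := (Finset.mem_insert.mp hp).resolve_left hpv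
    have hqU := (Finset.mem_insert.mp hq).resolve_left hqv
    obtain ⟨z, hz, hz1, hz2⟩ := h.good p hpU q hqU hpq hc
    by_cases hzw : z = w
    · subst hzw
      by_cases hpi : c p = i
      · refine ⟨v, hwi, ?_, ?_⟩
        · rw [cv, hpi]; exact hij.symm
        · have e1 := hw.2.2.2 p hpU (by rw [hpi]; exact hij)
          have e2 := hw.2.2.2 q hqU (by rw [← hc, hpi]; exact hij)
          intro e
          apply hz2
          rw [G.adj_comm z p, G.adj_comm z q, ← e1, ← e2, G.adj_comm p v, G.adj_comm q v]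
          exact e
      · exact ⟨z, hwU, by rw [cw]; exact fun e => hpi e.symm, hz2⟩
    · exact ⟨z, Finset.mem_insert_of_mem hz, by rw [cz z (hne z hz) hzw]; exact hz1, hz2⟩
  · intro q hq hqv hqw hvq hc
    rw [cv, cz q hqv hqw] at hc
    rw [cv]
    have hqU := (Finset.mem_insert.mp hq).resolve_left hqv
    by_cases hqW : IsW G U c v j q
    · refine ⟨w, hwU, by rw [cw]; exact hij, fun e => ?_⟩
      exact h.indep hw.1 hqU hw.2.1 hvq (by rw [hw.2.2.1, hc]) (e.mp hw.2.1.symm)
    · have : ∃ z ∈ U, c z ≠ j ∧ ¬ (G.Adj z v ↔ G.Adj z q) := by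
        by_contra hcon2
        push Not at hcon2
        apply hqW
        exact ⟨hqU, hvq, hc.symm, fun z hz hz1 => by
          by_contra hcon3
          exact absurd (hcon2 z hz hz1) hcon3⟩
      obtain ⟨z, hz, hz1, hz2⟩ := this
      have hzw : z ≠ w := fun e => hz1 (by rw [e]; exact hw.2.2.1)
      exact ⟨z, Finset.mem_insert_of_mem hz, by rw [cz z (hne z hz) hzw]; exact hz1, hz2⟩
  · intro q hq hqv hqw hwq hc
    rw [cw, cz q hqv hqw] at hc
    rw [cw]
    have hqU := (Finset.mem_insert.mp hq).resolve_left hqv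
    by_contra hcon2
    push Not at hcon2
    apply hcon
    refine ⟨q, hqU, hwq, hc.symm, fun z hz hz1 hzw => ?_⟩
    by_contra hcon3
    exact absurd (hcon2 z (Finset.mem_insert_of_mem hz)
      (by rw [cz z (hne z hz) hzw]; exact hz1)) hcon3
  · rw [cv, cw]; exact hij.symm

end Pool.Agent.H346R3.LMD
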