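import Pool.Agent.H346R3.LMD.Stuck

set_option autoImplicit false
set_option linter.unusedSectionVars false

namespace Pool.Agent.H346R3.LMD

open Finset

variable {V : Type*} [DecidableEq V] {G : SimpleGraph V} {k : ℕ}
variable {U : Finset V} {c : V → Fin k} {v : V}

/-- a two-point recolouring -/
def rec2 (c : V → Fin k) (v y : V) (i j : Fin k) : V → Fin k :=
  fun z => if z = v then i else if z = y then j else c z

theorem rec2_v (c : V → Fin k) (v y : V) (i j : Fin k) : rec2 c v y i j v = i := by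
  simp [rec2]

theorem rec2_y (c : V → Fin k) {v y : V} (h : y ≠ v) (i j : Fin k) : rec2 c v y i j y = j := by
  simp [rec2, h]

theorem rec2_z (c : V → Fin k) {v y z : V} (h1 : z ≠ v) (h2 : z ≠ y) (i j : Fin k) :
    rec2 c v y i j z = c z := by
  simp [rec2, h1, h2]

/-- in a stuck situation all the conflict vertices are true twins of `v` -/
theorem Stuck.twin (h : Stuck G U c v) (hk : 2 ≤ k) {j : Fin k} {w : V}
    (hw : IsW G U c v j w) {z₀ : V} (hz₀ : z₀ ∈ U) (hzw : z₀ ≠ w) :
    G.Adj z₀ v ↔ G.Adj z₀ w := by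
  by_contra hne0
  have hnt : Nontrivial (Fin k) := Fin.nontrivial_iff_two_le.mpr hk
  obtain ⟨i, hij⟩ := exists_ne j
  obtain ⟨y, hyU, hwy, hcy, hy⟩ := h.step hij hw
  obtain ⟨x, hx⟩ := h.exists_W i
  have hne : ∀ z ∈ U, z ≠ v := fun z hz e => h.hv (e ▸ hz)
  have hvy : G.Adj v y :=
    ((hw.2.2.2 y hyU (by rw [hcy]; exact hij)).mpr hwy.symm).symm
  have cz0 : c z₀ = j := by
    by_contra hc
    exact hne0 (hw.2.2.2 z₀ hz₀ hc)
  have hxy : x ≠ y := by
    rintro rfl
    apply hne0
    rw [hx.2.2.2 z₀ hz₀ (by rw [cz0]; exact hij.symm), hy z₀ hz₀ (by rw [cz0]; exact hij.symm) hzw]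
  have hxny : ¬ G.Adj x y := h.indep hx.1 hyU hx.2.1 hvy (by rw [hx.2.2.1, hcy])
  have hxw : G.Adj x w := hx.adj hw.1 hw.2.1 (by rw [hw.2.2.1]; exact hij.symm)
  have hWuniq : ∀ w', IsW G U c v j w' → w' = w := by
    intro w' hw'
    by_contra hww
    have h1 : G.Adj w' y := hw'.adj hyU hvy (by rw [hcy]; exact hij)
    have h2 := (hy w' hw'.1 (by rw [hw'.2.2.1]; exact hij.symm) hww).mpr h1
    exact h.indep hw'.1 hw.1 hw'.2.1 hw.2.1 (by rw [hw'.2.2.1, hw.2.2.1]) h2
  have hvi : v ∈ insert v U := Finset.mem_insert_self _ _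
  -- the obstacle for the first recolouring
  have hO : ∃ a ∈ U, ∃ b ∈ U, c a = j ∧ c b = j ∧ G.Adj a b ∧ G.Adj y a ∧ ¬ G.Adj y b ∧
      ¬ G.Adj v a ∧ ¬ G.Adj v b ∧ ∀ z ∈ U, c z ≠ j → z ≠ y → (G.Adj z a ↔ G.Adj z b) := by
    by_contra hcon
    apply h.max (rec2 c v y i j)
    have hyv : y ≠ v := hne y hyU
    apply good_of_two (v := v) (y := y)
    · intro p hp q hq hpv hqv hpy hqy hpq hc
      rw [rec2_z c hpv hpy, rec2_z c hqv hqy] at hc
      rw [rec2_z c hpv hpy]
      have hpU := (Finset.mem_insert.mp hp).resolve_left hpv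
      have hqU := (Finset.mem_insert.mp hq).resolve_left hqv
      obtain ⟨z, hz, hz1, hz2⟩ := h.good p hpU q hqU hpq hc
      by_cases hzy : z = y
      · subst hzy
        by_cases hpj : c p = j
        · by_cases e : (G.Adj v p ↔ G.Adj v q)
          · have hvp : ¬ G.Adj v p := fun e1 =>
              h.indep hpU hqU e1 (e.mp e1) hc hpq
            have hvq : ¬ G.Adj v q := fun e1 => hvp (e.mpr e1)
            by_contra hno
            push Not at hno
            have hall : ∀ z' ∈ U, c z' ≠ j → z' ≠ z → (G.Adj z' p ↔ G.Adj z' q) := by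
              intro z' hz' hcz' hzz'
              by_contra h3
              exact absurd (hno z' (Finset.mem_insert_of_mem hz')
                (by rw [rec2_z c (hne z' hz') hzz', hpj]; exact hcz')) h3
            apply hcon
            by_cases hzp : G.Adj z p
            · have hzq : ¬ G.Adj z q := fun e1 => hz2 ⟨fun _ => e1, fun _ => hzp⟩
              exact ⟨p, hpU, q, hqU, hpj, by rw [← hc, hpj], hpq, hzp, hzq, hvp, hvq, hall⟩
            · have hzq : G.Adj z q := by
                by_contra e1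
                exact hz2 ⟨fun e2 => absurd e2 hzp, fun e2 => absurd e2 e1⟩
              exact ⟨q, hqU, p, hpU, by rw [← hc, hpj], hpj, hpq.symm, hzq, hzp, hvq, hvp,
                fun z' h1 h2 h3 => (hall z' h1 h2 h3).symm⟩
          · exact ⟨v, hvi, by rw [rec2_v, hpj]; exact hij, e⟩
        · exact ⟨z, Finset.mem_insert_of_mem hz, by
            rw [rec2_y c hyv]; exact fun e => hpj e.symm, hz2⟩
      · exact ⟨z, Finset.mem_insert_of_mem hz, by rw [rec2_z c (hne z hz) hzy]; exact hz1, hz2⟩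
    · intro q hq hqv hqy hvq hc
      rw [rec2_v, rec2_z c hqv hqy] at hc
      rw [rec2_v]
      have hqU := (Finset.mem_insert.mp hq).resolve_left hqv
      refine ⟨y, Finset.mem_insert_of_mem hyU, by rw [rec2_y c hyv]; exact hij.symm, fun e => ?_⟩
      exact h.indep hyU hqU hvy hvq (by rw [hcy, hc]) (e.mp hvy.symm)
    · intro q hq hqv hqy hyq hc
      rw [rec2_y c hyv, rec2_z c hqv hqy] at hc
      rw [rec2_y c hyv]
      have hqU := (Finset.mem_insert.mp hq).resolve_left hqv
      by_cases hqw : q = w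
      · subst hqw
        refine ⟨x, Finset.mem_insert_of_mem hx.1, ?_, fun e => hxny (e.mpr hxw)⟩
        rw [rec2_z c (hne x hx.1) hxy, hx.2.2.1]
        exact hij
      · have h1 : G.Adj q w := (hy q hqU (by rw [← hc]; exact hij.symm) hqw).mpr hyq.symm
        have h2 : ¬ G.Adj v q := fun e =>
          h.indep hqU hw.1 e hw.2.1 (by rw [hw.2.2.1, hc]) h1
        exact ⟨v, hvi, by rw [rec2_v]; exact hij, fun e => h2 (e.mp hvy)⟩
    · rw [rec2_v, rec2_y c hyv]; exact hij
  obtain ⟨a, haU, b, hbU, hca, hcb, hab, hya, hyb, hva, hvb, hall⟩ := hO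
  have haw : a ≠ w := fun e => hva (e ▸ hw.2.1)
  have hbv : b ≠ v := hne b hbU
  have hba : b ≠ a := (G.ne_of_adj hab).symm
  have hwa : G.Adj a w := (hy a haU (by rw [hca]; exact hij.symm) haw).mpr hya.symm
  have hav : a ≠ v := hne a haU
  apply h.max (rec2 c v a j i)
  apply good_of_two (v := v) (y := a)
  · intro p hp q hq hpv hqv hpa hqa hpq hc
    rw [rec2_z c hpv hpa, rec2_z c hqv hqa] at hc
    rw [rec2_z c hpv hpa]
    have hpU := (Finset.mem_insert.mp hp).resolve_left hpv
    have hqU := (Finset.mem_insert.mp hq).resolve_left hqv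
    obtain ⟨z, hz, hz1, hz2⟩ := h.good p hpU q hqU hpq hc
    by_cases hza : z = a
    · subst hza
      by_cases hpi : c p = i
      · by_cases e : (G.Adj v p ↔ G.Adj v q)
        · have hvp : ¬ G.Adj v p := fun e1 => h.indep hpU hqU e1 (e.mp e1) hc hpq
          have hvq : ¬ G.Adj v q := fun e1 => hvp (e.mpr e1)
          have hpy : p ≠ y := fun e1 => hvp (e1 ▸ hvy)
          have hqy : q ≠ y := fun e1 => hvq (e1 ▸ hvy)
          have e1 := hall p hpU (by rw [hpi]; exact hij) hpy
          have e2 := hall q hqU (by rw [← hc, hpi]; exact hij) hqy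
          refine ⟨b, Finset.mem_insert_of_mem hbU, ?_, fun e3 => hz2 ?_⟩
          · rw [rec2_z c hbv hba, hcb, hpi]; exact hij.symm
          · rw [G.adj_comm z p, G.adj_comm z q, e1, e2, G.adj_comm p b, G.adj_comm q b]
            exact e3
        · exact ⟨v, hvi, by rw [rec2_v, hpi]; exact hij.symm, e⟩
      · exact ⟨z, Finset.mem_insert_of_mem hz, by
          rw [rec2_y c hav]; exact fun e => hpi e.symm, hz2⟩
    · exact ⟨z, Finset.mem_insert_of_mem hz, by rw [rec2_z c (hne z hz) hza]; exact hz1, hz2⟩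
  · intro q hq hqv hqa hvq hc
    rw [rec2_v, rec2_z c hqv hqa] at hc
    rw [rec2_v]
    have hqU := (Finset.mem_insert.mp hq).resolve_left hqv
    by_cases hqW : IsW G U c v j q
    · have hqw := hWuniq q hqW
      subst hqw
      exact ⟨a, Finset.mem_insert_of_mem haU, by rw [rec2_y c hav]; exact hij,
        fun e => hva (e.mpr hwa).symm⟩
    · have : ∃ z ∈ U, c z ≠ j ∧ ¬ (G.Adj z v ↔ G.Adj z q) := by
        by_contra hcon2
        push Not at hcon2
        apply hqW
        exact ⟨hqU, hvq, hc.symm, fun z hz hz1 => by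
          by_contra hcon3
          exact absurd (hcon2 z hz hz1) hcon3⟩
      obtain ⟨z, hz, hz1, hz2⟩ := this
      have hza : z ≠ a := fun e => hz1 (by rw [e]; exact hca)
      exact ⟨z, Finset.mem_insert_of_mem hz, by rw [rec2_z c (hne z hz) hza]; exact hz1, hz2⟩
  · intro q hq hqv hqa haq hc
    rw [rec2_y c hav, rec2_z c hqv hqa] at hc
    rw [rec2_y c hav]
    have hqU := (Finset.mem_insert.mp hq).resolve_left hqv
    by_cases hqy : q = y
    · subst hqy
      refine ⟨b, Finset.mem_insert_of_mem hbU, ?_, fun e => hyb (e.mp hab.symm).symm⟩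
      rw [rec2_z c hbv hba, hcb]; exact hij.symm
    · by_cases hvq : G.Adj v q
      · exact ⟨v, hvi, by rw [rec2_v]; exact hij.symm, fun e => hva (e.mpr hvq)⟩
      · refine ⟨w, Finset.mem_insert_of_mem hw.1, ?_, fun e => ?_⟩
        · rw [rec2_z c (hne w hw.1) haw.symm, hw.2.2.1]; exact hij.symm
        · have h1 := (hw.2.2.2 q hqU (by rw [← hc]; exact hij)).mpr (e.mp hwa.symm).symm
          exact hvq h1.symm
  · rw [rec2_v, rec2_y c hav]; exact hij.symm

/-- the structure of a stuck situation: `v` completes an isolated clique of `U` -/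
theorem Stuck.structure' (h : Stuck G U c v) (hk : 2 ≤ k) :
    ∃ u : Fin k → V, (∀ l, u l ∈ U) ∧ (∀ l, c (u l) = l) ∧ (∀ l, G.Adj v (u l)) ∧
      (∀ l m, l ≠ m → G.Adj (u l) (u m)) ∧
      (∀ z ∈ U, G.Adj v z → ∃ l, z = u l) ∧
      (∀ z ∈ U, ∀ l, G.Adj (u l) z → ∃ m, z = u m) := by
  have hex := fun j => h.exists_W j
  choose u hu using hex
  have h1 : ∀ z ∈ U, G.Adj v z → ∃ l, z = u l := by
    intro z hz hvz
    refine ⟨c z, ?_⟩
    by_contra hne
    have h2 := (h.twin hk (hu (c z)) hz hne).mp hvz.symm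
    exact h.indep hz (hu (c z)).1 hvz (hu (c z)).2.1 (by rw [(hu (c z)).2.2.1]) h2
  refine ⟨u, fun l => (hu l).1, fun l => (hu l).2.2.1, fun l => (hu l).2.1, ?_, h1, ?_⟩
  · intro l m hlm
    exact (hu l).adj (hu m).1 (hu m).2.1 (by rw [(hu m).2.2.1]; exact hlm.symm)
  · intro z hz l hl
    by_cases e : z = u l
    · exact ⟨l, e⟩
    · exact h1 z hz ((h.twin hk (hu l) hz e).mpr hl.symm).symm

end Pool.Agent.H346R3.LMD
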